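import Pool.Agent.E8helper32.SB.Stm

/-!
# The zeros of a Bessel function are isolated
-/

set_option autoImplicit false

open Metric Set Filter Topology

namespace Pool.Agent.E8helper92.SB

open Pool.Agent.E8helper32.SB

theorem prod_ge (μ : ℝ) (hμ : -1 < μ) (j : ℕ) :
    min 1 (μ + 1) ≤ ∏ i ∈ Finset.range j, (μ + i + 1) := by
  induction j with
  | zero => simp
  | succ n ih =>
    rw [Finset.prod_range_succ]
    rcases Nat.eq_zero_or_pos n with h0 | h0
    · subst h0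
      simp
    · have h1 : (1 : ℝ) ≤ n := by exact_mod_cast h0
      have hm : 0 < min 1 (μ + 1) := lt_min one_pos (by linarith)
      have h2 : (1 : ℝ) ≤ μ + n + 1 := by linarith
      have h3 : 0 < ∏ i ∈ Finset.range n, (μ + i + 1) := lt_of_lt_of_le hm ih
      nlinarith

theorem norm_term (μ : ℝ) (hμ : -1 < μ) (R : ℝ) (κ : ℂ) (hκ : ‖κ‖ ≤ R) (j : ℕ) :
    ‖(-κ) ^ j / ((j.factorial : ℂ) * ∏ i ∈ Finset.range j, ((μ : ℂ) + i + 1))‖ ≤
      (min 1 (μ + 1))⁻¹ * (R ^ j / (j.factorial : ℝ)) := by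
  have hm : 0 < min 1 (μ + 1) := lt_min one_pos (by linarith)
  have hp := prod_ge μ hμ j
  have h1 : (∏ i ∈ Finset.range j, ((μ : ℂ) + i + 1)) =
      ((∏ i ∈ Finset.range j, (μ + i + 1) : ℝ) : ℂ) := by
    push_cast
    rfl
  have hpos : 0 < ∏ i ∈ Finset.range j, (μ + i + 1) := lt_of_lt_of_le hm hp
  have hf : (0 : ℝ) < (j.factorial : ℝ) := by exact_mod_cast j.factorial_pos
  rw [h1, norm_div, norm_mul, norm_pow, norm_neg, Complex.norm_natCast, Complex.norm_real,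
    Real.norm_of_nonneg hpos.le]
  have h2 : ‖κ‖ ^ j ≤ R ^ j := pow_le_pow_left₀ (norm_nonneg _) hκ j
  have h3 : (j.factorial : ℝ) * min 1 (μ + 1) ≤
      (j.factorial : ℝ) * ∏ i ∈ Finset.range j, (μ + i + 1) :=
    mul_le_mul_of_nonneg_left hp hf.le
  have h4 : 0 ≤ R ^ j := le_trans (pow_nonneg (norm_nonneg _) j) h2
  calc ‖κ‖ ^ j / ((j.factorial : ℝ) * ∏ i ∈ Finset.range j, (μ + i + 1))
      ≤ R ^ j / ((j.factorial : ℝ) * min 1 (μ + 1)) :=
        div_le_div₀ h4 h2 (mul_pos hf hm) h3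
    _ = (min 1 (μ + 1))⁻¹ * (R ^ j / (j.factorial : ℝ)) := by
        field_simp

theorem fc_diff (μ : ℝ) (hμ : -1 < μ) : Differentiable ℂ (Fc μ) := by
  intro z
  have hR : z ∈ ball (0 : ℂ) (‖z‖ + 1) := by
    simp
  have hsum : Summable fun j : ℕ =>
      (min 1 (μ + 1))⁻¹ * ((‖z‖ + 1) ^ j / (j.factorial : ℝ)) :=
    (Real.summable_pow_div_factorial _).mul_left _
  have h := Complex.differentiableOn_tsum_of_summable_norm
    (F := fun (j : ℕ) (κ : ℂ) =>
      (-κ) ^ j / ((j.factorial : ℂ) * ∏ i ∈ Finset.range j, ((μ : ℂ) + i + 1)))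
    (U := ball (0 : ℂ) (‖z‖ + 1)) hsum
    (fun j => by
      have : Differentiable ℂ fun κ : ℂ =>
          (-κ) ^ j / ((j.factorial : ℂ) * ∏ i ∈ Finset.range j, ((μ : ℂ) + i + 1)) := by
        fun_prop
      exact this.differentiableOn)
    isOpen_ball
    (fun j w hw => norm_term μ hμ _ w (by
      rw [mem_ball_zero_iff] at hw
      exact hw.le) j)
  exact (h z hR).differentiableAt (isOpen_ball.mem_nhds hR)

theorem fc_real (μ k : ℝ) : Fc μ (k : ℂ) = ((Bf μ k : ℝ) : ℂ) := by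
  unfold Fc Bf
  rw [Complex.ofReal_tsum]
  congr 1
  funext j
  push_cast
  rfl

theorem fc_zero (μ : ℝ) : Fc μ 0 = 1 := by
  unfold Fc
  rw [tsum_eq_single 0]
  · simp
  · intro j hj
    simp [hj]

theorem bfin : S_BFIN := by
  intro μ K hμ
  by_contra hinf
  have hinf' : {k : ℝ | 0 ≤ k ∧ k ≤ K ∧ Bf μ k = 0}.Infinite := hinf
  obtain ⟨a, -, ha⟩ := hinf'.exists_accPt_of_subset_isCompact (isCompact_Icc (a := 0) (b := K))
    (fun k hk => ⟨hk.1, hk.2.1⟩)
  have han : AnalyticOnNhd ℂ (Fc μ) univ := fun z _ => (fc_diff μ hμ).analyticAt z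
  have hfreq : ∃ᶠ z in 𝓝[≠] ((a : ℝ) : ℂ), Fc μ z = 0 := by
    rw [accPt_iff_frequently] at ha
    have hc : Tendsto (fun x : ℝ => (x : ℂ)) (𝓝[≠] a) (𝓝[≠] (a : ℂ)) := by
      apply tendsto_nhdsWithin_of_tendsto_nhds_of_eventually_within
      · exact (Complex.continuous_ofReal.tendsto a).mono_left nhdsWithin_le_nhds
      · filter_upwards [self_mem_nhdsWithin] with x hx
        intro h
        exact hx (Complex.ofReal_injective h)
    refine hc.frequently ?_
    rw [frequently_nhdsWithin_iff]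
    refine ha.mono ?_
    rintro x ⟨hx1, hx2⟩
    refine ⟨?_, hx1⟩
    rw [fc_real, hx2.2.2]
    simp
  have h0 := han.eqOn_zero_of_preconnected_of_frequently_eq_zero isPreconnected_univ
    (mem_univ _) hfreq (mem_univ (0 : ℂ))
  rw [fc_zero] at h0
  simp at h0

end Pool.Agent.E8helper92.SB
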